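import Mathlib

/-!
# Traces of idempotent matrices in families
-/

set_option autoImplicit false
set_option linter.unusedSectionVars false

namespace Pool.Agent.K6.H28.IP

open Matrix

universe u v

/-- the trace of an idempotent matrix over a domain of characteristic zero is a natural number, and it
is zero only for the zero matrix -/
theorem trace_nat {D : Type u} [CommRing D] [IsDomain D] [CharZero D] {N : Type v} [Fintype N]
    [DecidableEq N] (E : Matrix N N D) (hE : E * E = E) :
    ∃ m : ℕ, E.trace = m ∧ (m = 0 → E = 0) := by
  let K := FractionRing D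
  let φ : D →+* K := algebraMap D K
  have hφ : Function.Injective φ := IsFractionRing.injective D K
  have hK : CharZero K := charZero_of_injective_algebraMap (R := D) hφ
  let F : Matrix N N K := φ.mapMatrix E
  have hF : F * F = F := by
    show φ.mapMatrix E * φ.mapMatrix E = φ.mapMatrix E
    rw [← map_mul, hE]
  let f := Matrix.toLin' F
  have hf : IsIdempotentElem f := by
    show f * f = f
    show Matrix.toLin' F * Matrix.toLin' F = Matrix.toLin' F
    rw [Module.End.mul_eq_comp, ← Matrix.toLin'_mul, hF]
  have htr : LinearMap.trace K (N → K) f = (Module.finrank K (LinearMap.range f) : K) :=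
    (LinearMap.IsIdempotentElem.isProj_range f hf).trace
  have htr2 : LinearMap.trace K (N → K) f = F.trace := Matrix.trace_toLin'_eq F
  have htr3 : F.trace = φ E.trace := by
    show (φ.mapMatrix E).trace = φ E.trace
    rw [Matrix.trace, Matrix.trace, map_sum]
    rfl
  refine ⟨Module.finrank K (LinearMap.range f), ?_, ?_⟩
  · apply hφ
    rw [← htr3, ← htr2, htr, map_natCast]
  · intro h0
    have h1 : f = 0 := by
      rw [h0, Nat.cast_zero] at htr
      exact (LinearMap.IsIdempotentElem.trace_eq_zero_iff hf).1 htr
    have h2 : F = 0 := by
      have : Matrix.toLin' F = Matrix.toLin' 0 := by rw [map_zero]; exact h1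
      exact Matrix.toLin'.injective this
    ext i j
    apply hφ
    have h3 := congrFun (congrFun h2 i) j
    rw [Matrix.zero_apply, map_zero]
    exact h3

/-- the block matrix of the image of a matrix -/
def blk {R : Type u} [Ring R] {D : Type v} [CommRing D] {n I : Type} [Fintype n]
    [DecidableEq n] [Fintype I] [DecidableEq I] (f : R →+* Matrix I I D) :
    Matrix n n R →+* Matrix (n × I) (n × I) D :=
  (Matrix.compRingEquiv n I D).toRingHom.comp f.mapMatrix

lemma blk_apply {R : Type u} [Ring R] {D : Type v} [CommRing D] {n I : Type} [Fintype n]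
    [DecidableEq n] [Fintype I] [DecidableEq I] (f : R →+* Matrix I I D) (e : Matrix n n R)
    (p q : n × I) : blk f e p q = f (e p.1 q.1) p.2 q.2 := rfl

lemma trace_blk {R : Type u} [Ring R] {D : Type v} [CommRing D] {n I : Type} [Fintype n]
    [DecidableEq n] [Fintype I] [DecidableEq I] (f : R →+* Matrix I I D) (e : Matrix n n R) :
    (blk f e).trace = (f e.trace).trace := by
  rw [Matrix.trace, Fintype.sum_prod_type, Matrix.trace, Matrix.trace, map_sum]
  simp only [Matrix.diag_apply, blk_apply]
  rw [Finset.sum_comm]
  refine Finset.sum_congr rfl fun i _ => ?_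
  rw [Matrix.sum_apply]

/-- the trace of an idempotent matrix in a representation over a domain of characteristic zero is a
natural number -/
theorem trace_rep {R : Type u} [Ring R] {D : Type v} [CommRing D] [IsDomain D] [CharZero D]
    {n I : Type} [Fintype n] [DecidableEq n] [Fintype I] [DecidableEq I]
    (f : R →+* Matrix I I D) (e : Matrix n n R) (he : e * e = e) :
    ∃ m : ℕ, (f e.trace).trace = m ∧ (m = 0 → blk f e = 0) := by
  rw [← trace_blk]
  refine trace_nat _ ?_
  rw [← map_mul, he]

/-- The traces of an idempotent matrix in two specialisations of a family agree. -/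
theorem trace_special {R : Type u} [Ring R] {D : Type v} [CommRing D] [IsDomain D] [CharZero D]
    {n I : Type} [Fintype n] [DecidableEq n] [Fintype I] [DecidableEq I]
    (f : R →+* Matrix I I D) (e : Matrix n n R) (he : e * e = e) {k : Type u} [CommRing k]
    (α β : D →+* k) : α (f e.trace).trace = β (f e.trace).trace := by
  obtain ⟨m, hm, -⟩ := trace_rep f e he
  rw [hm, map_natCast, map_natCast]

end Pool.Agent.K6.H28.IP
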