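import Mathlib
import Pool.Agent.K6.H28.IP.Tr
import Pool.Agent.Q151.Cov.Prom

/-!
# Idempotent matrices over the group ring of the Promislow (Hantzsche-Wendt) group
-/

set_option autoImplicit false
set_option linter.unusedSectionVars false

namespace Pool.Agent.K6.H28.IP

open Pool.Agent.Q151.Cov

/-! ### Monomial representations -/

section crep

variable {G V D : Type} [Group G] [Group V] [Fintype V] [DecidableEq V] [CommRing D]

/-- the monomial representation given by a cocycle -/
def crep (cl : G →* V) (c : V → G → D) (h1 : ∀ v, c v 1 = 1)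
    (hc : ∀ v g h, c v (g * h) = c v g * c (v * cl g) h) : G →* Matrix V V D where
  toFun g := Matrix.of fun v w => if w = v * cl g then c v g else 0
  map_one' := by
    ext v w
    rw [Matrix.of_apply, map_one, mul_one, h1, Matrix.one_apply]
    by_cases h : v = w
    · rw [if_pos h, if_pos h.symm]
    · rw [if_neg h, if_neg (fun h' => h h'.symm)]
  map_mul' g h := by
    ext v w
    rw [Matrix.mul_apply, Matrix.of_apply, map_mul, ← mul_assoc, hc]
    rw [Finset.sum_eq_single (v * cl g)]
    · rw [Matrix.of_apply, Matrix.of_apply, if_pos rfl]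
      by_cases h' : w = v * cl g * cl h
      · rw [if_pos h', if_pos h']
      · rw [if_neg h', if_neg h', mul_zero]
    · intro b _ hb
      rw [Matrix.of_apply, if_neg hb, zero_mul]
    · intro h'
      exact absurd (Finset.mem_univ _) h'

lemma crep_trace (cl : G →* V) (c : V → G → D) (h1 : ∀ v, c v 1 = 1)
    (hc : ∀ v g h, c v (g * h) = c v g * c (v * cl g) h) (g : G) :
    (crep cl c h1 hc g).trace = if cl g = 1 then ∑ v, c v g else 0 := by
  rw [Matrix.trace]
  split_ifs with h
  · refine Finset.sum_congr rfl fun v _ => ?_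
    show (if v = v * cl g then c v g else 0) = c v g
    rw [h, mul_one, if_pos rfl]
  · refine Finset.sum_eq_zero fun v _ => ?_
    show (if v = v * cl g then c v g else 0) = 0
    rw [if_neg]
    intro h'
    exact h (by simpa using h'.symm)

variable {k : Type} [CommRing k] [Algebra k D]

/-- the extension to the group ring -/
noncomputable def crepA (cl : G →* V) (c : V → G → D) (h1 : ∀ v, c v 1 = 1)
    (hc : ∀ v g h, c v (g * h) = c v g * c (v * cl g) h) :
    MonoidAlgebra k G →ₐ[k] Matrix V V D :=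
  MonoidAlgebra.lift k (Matrix V V D) G (crep cl c h1 hc)

lemma crepA_single (cl : G →* V) (c : V → G → D) (h1 : ∀ v, c v 1 = 1)
    (hc : ∀ v g h, c v (g * h) = c v g * c (v * cl g) h) (g : G) (a : k) :
    crepA (k := k) cl c h1 hc (MonoidAlgebra.single g a) = a • crep cl c h1 hc g := by
  rw [crepA, MonoidAlgebra.lift_single]

end crep

/-- an algebra with a homomorphism to the base has characteristic zero -/
lemma charZero_of_alg {k D : Type} [CommRing k] [CharZero k] [CommRing D] [Algebra k D]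
    (α : D →ₐ[k] k) : CharZero D := by
  refine charZero_of_injective_algebraMap (R := k) ?_
  intro a b h
  have := congrArg α h
  rwa [AlgHom.commutes, AlgHom.commutes] at this

/-! ### Two-dimensional families -/

section fam

variable {G : Type} [Group G] {k : Type} [CommRing k]

/-- the coefficients of the two-dimensional family -/
noncomputable def c2 (k : Type) [CommRing k] (X : G → ℤ) (v : ℤˣ) (g : G) : AddMonoidAlgebra k ℤ :=
  AddMonoidAlgebra.single ((v : ℤ) * X g) 1

variable (ζ : G →* ℤˣ) (X : G → ℤ) (hX : ∀ g h, X (g * h) = X g + (ζ g : ℤ) * X h)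

include hX in
lemma X_one : X 1 = 0 := by
  have := hX 1 1
  rw [mul_one, map_one, Units.val_one, one_mul] at this
  omega

include hX in
lemma c2_one (v : ℤˣ) : c2 k X v 1 = 1 := by
  rw [c2, X_one ζ X hX, mul_zero]
  rfl

include hX in
lemma c2_mul (v : ℤˣ) (g h : G) : c2 k X v (g * h) = c2 k X v g * c2 k X (v * ζ g) h := by
  rw [c2, c2, c2, AddMonoidAlgebra.single_mul_single, mul_one, hX]
  congr 1
  push_cast
  ring

/-- the specialisation of the parameter -/
noncomputable def ev (k : Type) [CommRing k] (u : kˣ) : AddMonoidAlgebra k ℤ →ₐ[k] k :=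
  AddMonoidAlgebra.lift k k ℤ ((Units.coeHom k).comp (zpowersHom kˣ u))

lemma ev_single (u : kˣ) (n : ℤ) : ev k u (AddMonoidAlgebra.single n 1) = ((u ^ n : kˣ) : k) := by
  rw [ev, AddMonoidAlgebra.lift_single, one_smul]
  rfl

lemma sum_units (f : ℤˣ → k) : ∑ v, f v = f 1 + f (-1) := by
  have : (Finset.univ : Finset ℤˣ) = {1, -1} := rfl
  rw [this, Finset.sum_insert (by decide), Finset.sum_singleton]

/-- traces in the specialisations -/
lemma ev_trace (u : kˣ) (hu : u ^ 2 = 1) (g : G) (a : k) :
    ev k u (crepA (k := k) ζ (c2 k X) (c2_one ζ X hX) (c2_mul ζ X hX)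
      (MonoidAlgebra.single g a)).trace = a * (((u ^ X g : kˣ) : k) * (1 + ((ζ g : ℤ) : k))) := by
  rw [crepA_single, Matrix.trace_smul, map_smul, smul_eq_mul, crep_trace]
  congr 1
  rcases Int.units_eq_one_or (ζ g) with h | h
  · rw [if_pos h, map_sum, sum_units, h, c2, c2, ev_single, ev_single]
    have h1 : u ^ (((-1 : ℤˣ) : ℤ) * X g) = u ^ X g := by
      have h2 : u⁻¹ = u := by
        rw [inv_eq_iff_mul_eq_one, ← sq, hu]
      rw [Units.val_neg, Units.val_one, neg_mul, one_mul, zpow_neg, ← inv_zpow, h2]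
    rw [h1, Units.val_one, one_mul]
    push_cast
    ring
  · rw [if_neg (by rw [h]; decide), map_zero, h]
    push_cast
    ring

include hX in
/-- the relation between the characters -/
theorem fam [IsDomain k] [CharZero k] {n : Type} [Fintype n] [DecidableEq n]
    (e : Matrix n n (MonoidAlgebra k G)) (he : e * e = e)
    (α β : MonoidAlgebra k G →ₗ[k] k)
    (hα : ∀ g, α (MonoidAlgebra.single g 1) = 1 + ((ζ g : ℤ) : k))
    (hβ : ∀ g, β (MonoidAlgebra.single g 1) =
      (((-1 : kˣ) ^ X g : kˣ) : k) * (1 + ((ζ g : ℤ) : k))) :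
    α e.trace = β e.trace := by
  have hcz : CharZero (AddMonoidAlgebra k ℤ) := charZero_of_alg (ev k 1)
  have key := trace_special (crepA (k := k) ζ (c2 k X) (c2_one ζ X hX)
    (c2_mul ζ X hX)).toRingHom e he (ev k 1).toRingHom (ev k (-1)).toRingHom
  have h1 : ∀ r : MonoidAlgebra k G, ev k 1 (crepA (k := k) ζ (c2 k X) (c2_one ζ X hX)
      (c2_mul ζ X hX) r).trace = α r := by
    intro r
    induction r using MonoidAlgebra.induction_linear with
    | zero => simp
    | add f g hf hg => rw [map_add, Matrix.trace_add, map_add, hf, hg, map_add]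
    | single g a =>
      rw [ev_trace ζ X hX 1 (by simp) g a]
      have : (MonoidAlgebra.single g a : MonoidAlgebra k G) = a • MonoidAlgebra.single g 1 := by
        rw [MonoidAlgebra.smul_single, smul_eq_mul, mul_one]
      rw [this, map_smul, hα, smul_eq_mul, one_zpow, Units.val_one, one_mul]
  have h2 : ∀ r : MonoidAlgebra k G, ev k (-1) (crepA (k := k) ζ (c2 k X) (c2_one ζ X hX)
      (c2_mul ζ X hX) r).trace = β r := by
    intro r
    induction r using MonoidAlgebra.induction_linear with
    | zero => simp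
    | add f g hf hg => rw [map_add, Matrix.trace_add, map_add, hf, hg, map_add]
    | single g a =>
      rw [ev_trace ζ X hX (-1) (by simp) g a]
      have : (MonoidAlgebra.single g a : MonoidAlgebra k G) = a • MonoidAlgebra.single g 1 := by
        rw [MonoidAlgebra.smul_single, smul_eq_mul, mul_one]
      rw [this, map_smul, hβ, smul_eq_mul]
  rw [← h1, ← h2]
  exact key

end fam

/-! ### The Promislow group -/

/-- the sign of an integer as a unit -/
def su (n : ℤ) : ℤˣ := if n % 2 = 0 then 1 else -1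

lemma su_val (n : ℤ) : (su n : ℤ) = sg n := by
  unfold su sg
  split_ifs <;> rfl

lemma su_mul (a b c : ℤ) : su (a + sg c * b) = su a * su b := by
  apply Units.ext
  rw [Units.val_mul, su_val, su_val, su_val, sg_mul]

lemma su_zero : su 0 = 1 := by decide

/-- the three signs -/
def sx : Ph →* ℤˣ where
  toFun g := su g.x
  map_one' := su_zero
  map_mul' g h := su_mul _ _ _

def sy : Ph →* ℤˣ where
  toFun g := su g.y
  map_one' := su_zero
  map_mul' g h := su_mul _ _ _

def sz : Ph →* ℤˣ where
  toFun g := su g.z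
  map_one' := su_zero
  map_mul' g h := su_mul _ _ _

/-- the class of an element -/
def clG : Pr →* ℤˣ × ℤˣ × ℤˣ := (sx.prod (sy.prod sz)).comp Pr.subtype

/-- the group of exponents -/
abbrev Lat : Type := ℤ × ℤ × ℤ

variable (k : Type) [CommRing k]

/-- the coefficients of the large family -/
noncomputable def c8 (v : ℤˣ × ℤˣ × ℤˣ) (g : Pr) : AddMonoidAlgebra k Lat :=
  AddMonoidAlgebra.single ((v.2.2 : ℤ) * g.1.x, (v.1 : ℤ) * g.1.y, (v.2.1 : ℤ) * g.1.z) 1

lemma c8_one (v : ℤˣ × ℤˣ × ℤˣ) : c8 k v 1 = 1 := by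
  have h1 : ((1 : Pr) : Ph).x = 0 := rfl
  have h2 : ((1 : Pr) : Ph).y = 0 := rfl
  have h3 : ((1 : Pr) : Ph).z = 0 := rfl
  rw [c8, h1, h2, h3, mul_zero, mul_zero, mul_zero]
  rfl

lemma c8_mul (v : ℤˣ × ℤˣ × ℤˣ) (g h : Pr) :
    c8 k v (g * h) = c8 k v g * c8 k (v * clG g) h := by
  have h1 : ((g * h : Pr) : Ph).x = g.1.x + sg g.1.z * h.1.x := rfl
  have h2 : ((g * h : Pr) : Ph).y = g.1.y + sg g.1.x * h.1.y := rfl
  have h3 : ((g * h : Pr) : Ph).z = g.1.z + sg g.1.y * h.1.z := rfl
  have h4 : (v * clG g).1 = v.1 * su g.1.x := rfl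
  have h5 : (v * clG g).2.1 = v.2.1 * su g.1.y := rfl
  have h6 : (v * clG g).2.2 = v.2.2 * su g.1.z := rfl
  rw [c8, c8, c8, AddMonoidAlgebra.single_mul_single, mul_one, h1, h2, h3, h4, h5, h6]
  congr 1
  simp only [Units.val_mul, su_val, Prod.mk_add_mk, Prod.mk.injEq]
  refine ⟨?_, ?_, ?_⟩ <;> ring

/-- the large family -/
noncomputable def Phi : MonoidAlgebra k Pr →ₐ[k]
    Matrix (ℤˣ × ℤˣ × ℤˣ) (ℤˣ × ℤˣ × ℤˣ) (AddMonoidAlgebra k Lat) :=
  crepA clG (c8 k) (c8_one k) (c8_mul k)

/-- the augmentation -/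
noncomputable def aug8 : AddMonoidAlgebra k Lat →ₐ[k] k :=
  AddMonoidAlgebra.lift k k Lat 1

lemma aug8_single (m : Lat) : aug8 k (AddMonoidAlgebra.single m 1) = 1 := by
  rw [aug8, AddMonoidAlgebra.lift_single, one_smul]
  rfl

lemma Phi_single_one_row (g : Pr) (a : k) :
    ∑ w, Phi k (MonoidAlgebra.single g a) 1 w =
      AddMonoidAlgebra.single ((g.1.x, g.1.y, g.1.z) : Lat) a := by
  rw [Phi, crepA_single]
  rw [Finset.sum_eq_single (clG g)]
  · show a • (if clG g = 1 * clG g then c8 k 1 g else 0) = _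
    rw [one_mul, if_pos rfl, c8, AddMonoidAlgebra.smul_single, smul_eq_mul, mul_one]
    congr 1
    show (((1 : ℤˣ) : ℤ) * g.1.x, ((1 : ℤˣ) : ℤ) * g.1.y, ((1 : ℤˣ) : ℤ) * g.1.z) = _
    rw [Units.val_one, one_mul, one_mul, one_mul]
  · intro w _ hw
    show a • (if w = 1 * clG g then c8 k 1 g else 0) = _
    rw [one_mul, if_neg hw, smul_zero]
  · intro h'
    exact absurd (Finset.mem_univ _) h'

lemma Phi_coeff (r : MonoidAlgebra k Pr) (g : Pr) :
    (∑ w, Phi k r 1 w).coeff (g.1.x, g.1.y, g.1.z) = r.coeff g := by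
  induction r using MonoidAlgebra.induction_linear with
  | zero => simp
  | add r s hr hs =>
    rw [map_add]
    simp only [Matrix.add_apply]
    rw [Finset.sum_add_distrib, AddMonoidAlgebra.coeff_add, Finsupp.add_apply, hr, hs,
      MonoidAlgebra.coeff_add, Finsupp.add_apply]
  | single h a =>
    rw [Phi_single_one_row]
    by_cases hgh : h = g
    · subst hgh
      simp
    · have h1 : ((h.1.x, h.1.y, h.1.z) : Lat) ≠ (g.1.x, g.1.y, g.1.z) := by
        intro h2
        rw [Prod.mk.injEq, Prod.mk.injEq] at h2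
        exact hgh (Subtype.ext (Ph.ext h2.1 h2.2.1 h2.2.2))
      rw [AddMonoidAlgebra.coeff_single, MonoidAlgebra.coeff_single,
        Finsupp.single_eq_of_ne (Ne.symm h1), Finsupp.single_eq_of_ne (Ne.symm hgh)]

lemma Phi_injective (r : MonoidAlgebra k Pr) (h : Phi k r = 0) : r = 0 := by
  ext g
  rw [← Phi_coeff, h]
  simp

end Pool.Agent.K6.H28.IP
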