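import Mathlib
import Pool.Agent.K6.H28.IP.Gr

/-!
# Idempotent matrices with vanishing augmentation over the group ring of the Promislow group
-/

set_option autoImplicit false
set_option linter.unusedSectionVars false

namespace Pool.Agent.K6.H28.IP

open Pool.Agent.Q151.Cov

variable (k : Type) [CommRing k]

/-- the linear character of a sign -/
noncomputable def chi (ζ : Pr →* ℤˣ) : MonoidAlgebra k Pr →ₐ[k] k :=
  MonoidAlgebra.lift k k Pr
    (((Int.castRingHom k : ℤ →* k).comp (Units.coeHom ℤ)).comp ζ)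

lemma chi_single (ζ : Pr →* ℤˣ) (g : Pr) (a : k) :
    chi k ζ (MonoidAlgebra.single g a) = a * ((ζ g : ℤ) : k) := by
  rw [chi, MonoidAlgebra.lift_single, smul_eq_mul]
  rfl

lemma neg_one_zpow (n : ℤ) : (((-1 : kˣ) ^ n : kˣ) : k) = ((sg n : ℤ) : k) := by
  rcases sg_cases n with ⟨h1, h2⟩ | ⟨h1, h2⟩
  · rw [h1, Even.neg_one_zpow (Int.even_iff.2 h2)]
    simp
  · rw [h1, Odd.neg_one_zpow (Int.odd_iff.2 h2)]
    simp

/-- the signs on the group -/
def tx : Pr →* ℤˣ := sx.comp Pr.subtype
def ty : Pr →* ℤˣ := sy.comp Pr.subtype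
def tz : Pr →* ℤˣ := sz.comp Pr.subtype

lemma tx_val (g : Pr) : ((tx g : ℤˣ) : ℤ) = sg g.1.x := su_val _
lemma ty_val (g : Pr) : ((ty g : ℤˣ) : ℤ) = sg g.1.y := su_val _
lemma tz_val (g : Pr) : ((tz g : ℤˣ) : ℤ) = sg g.1.z := su_val _

lemma signs (g : Pr) : sg g.1.x * sg g.1.z = sg g.1.y ∧ sg g.1.y * sg g.1.x = sg g.1.z ∧
    sg g.1.z * sg g.1.y = sg g.1.x := by
  have h : (g.1.x + g.1.y + g.1.z) % 2 = 0 := g.2
  rcases sg_cases g.1.x with ⟨h1, h2⟩ | ⟨h1, h2⟩ <;>
    rcases sg_cases g.1.y with ⟨h3, h4⟩ | ⟨h3, h4⟩ <;>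
    rcases sg_cases g.1.z with ⟨h5, h6⟩ | ⟨h5, h6⟩ <;>
    rw [h1, h3, h5] <;> first | decide | omega

section

variable [IsDomain k] [CharZero k] {n : Type} [Fintype n] [DecidableEq n]
  (e : Matrix n n (MonoidAlgebra k Pr)) (he : e * e = e)

include he

lemma fam_x : chi k 1 e.trace + chi k tz e.trace = chi k tx e.trace + chi k ty e.trace := by
  refine fam tz (fun g : Pr => g.1.x) (fun g h => ?_) e he
    ((chi k 1).toLinearMap + (chi k tz).toLinearMap)
    ((chi k tx).toLinearMap + (chi k ty).toLinearMap) (fun g => ?_) fun g => ?_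
  · rw [tz_val]; rfl
  · rw [LinearMap.add_apply, AlgHom.toLinearMap_apply, AlgHom.toLinearMap_apply, chi_single,
      chi_single, MonoidHom.one_apply, Units.val_one, Int.cast_one, one_mul, one_mul]
  · rw [LinearMap.add_apply, AlgHom.toLinearMap_apply, AlgHom.toLinearMap_apply, chi_single,
      chi_single, one_mul, one_mul, neg_one_zpow, tx_val, ty_val, tz_val, ← (signs g).1]
    push_cast
    ring

lemma fam_y : chi k 1 e.trace + chi k tx e.trace = chi k ty e.trace + chi k tz e.trace := by
  refine fam tx (fun g : Pr => g.1.y) (fun g h => ?_) e he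
    ((chi k 1).toLinearMap + (chi k tx).toLinearMap)
    ((chi k ty).toLinearMap + (chi k tz).toLinearMap) (fun g => ?_) fun g => ?_
  · rw [tx_val]; rfl
  · rw [LinearMap.add_apply, AlgHom.toLinearMap_apply, AlgHom.toLinearMap_apply, chi_single,
      chi_single, MonoidHom.one_apply, Units.val_one, Int.cast_one, one_mul, one_mul]
  · rw [LinearMap.add_apply, AlgHom.toLinearMap_apply, AlgHom.toLinearMap_apply, chi_single,
      chi_single, one_mul, one_mul, neg_one_zpow, tx_val, ty_val, tz_val, ← (signs g).2.1]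
    push_cast
    ring

lemma fam_z : chi k 1 e.trace + chi k ty e.trace = chi k tz e.trace + chi k tx e.trace := by
  refine fam ty (fun g : Pr => g.1.z) (fun g h => ?_) e he
    ((chi k 1).toLinearMap + (chi k ty).toLinearMap)
    ((chi k tz).toLinearMap + (chi k tx).toLinearMap) (fun g => ?_) fun g => ?_
  · rw [ty_val]; rfl
  · rw [LinearMap.add_apply, AlgHom.toLinearMap_apply, AlgHom.toLinearMap_apply, chi_single,
      chi_single, MonoidHom.one_apply, Units.val_one, Int.cast_one, one_mul, one_mul]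
  · rw [LinearMap.add_apply, AlgHom.toLinearMap_apply, AlgHom.toLinearMap_apply, chi_single,
      chi_single, one_mul, one_mul, neg_one_zpow, tx_val, ty_val, tz_val, ← (signs g).2.2]
    push_cast
    ring

end

lemma aug8_trace (r : MonoidAlgebra k Pr) :
    aug8 k (Phi k r).trace = 2 * (chi k 1 r + chi k tx r + chi k ty r + chi k tz r) := by
  induction r using MonoidAlgebra.induction_linear with
  | zero => simp
  | add f g hf hg =>
    rw [map_add, Matrix.trace_add, map_add, hf, hg]
    simp only [map_add]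
    ring
  | single g a =>
    rw [Phi, crepA_single, Matrix.trace_smul, map_smul, smul_eq_mul, crep_trace]
    simp only [chi_single]
    rw [MonoidHom.one_apply, Units.val_one, Int.cast_one, tx_val, ty_val, tz_val]
    have h : (g.1.x + g.1.y + g.1.z) % 2 = 0 := g.2
    by_cases hg : clG g = 1
    · rw [if_pos hg, map_sum]
      have h1 : ∀ v, aug8 k (c8 k v g) = 1 := fun v => aug8_single k _
      rw [Finset.sum_congr rfl fun v _ => h1 v]
      have h2 : su g.1.x = 1 := congrArg Prod.fst hg
      have h3 : su g.1.y = 1 := congrArg (fun p => p.2.1) hg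
      have h4 : su g.1.z = 1 := congrArg (fun p => p.2.2) hg
      rw [← su_val, ← su_val, ← su_val, h2, h3, h4]
      have h5 : Fintype.card (ℤˣ × ℤˣ × ℤˣ) = 8 := rfl
      rw [Finset.sum_const, Finset.card_univ, h5]
      push_cast
      rw [nsmul_eq_mul]
      push_cast
      ring
    · rw [if_neg hg, map_zero]
      have h2 : ¬ (g.1.x % 2 = 0 ∧ g.1.y % 2 = 0 ∧ g.1.z % 2 = 0) := by
        rintro ⟨h2, h3, h4⟩
        apply hg
        show (su g.1.x, su g.1.y, su g.1.z) = 1
        unfold su
        rw [if_pos h2, if_pos h3, if_pos h4]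
        rfl
      rcases sg_cases g.1.x with ⟨h3, h4⟩ | ⟨h3, h4⟩ <;>
        rcases sg_cases g.1.y with ⟨h5, h6⟩ | ⟨h5, h6⟩ <;>
        rcases sg_cases g.1.z with ⟨h7, h8⟩ | ⟨h7, h8⟩ <;>
        first
        | (exfalso; omega)
        | (rw [h3, h5, h7]; push_cast; ring)

/-- **Idempotent matrices with vanishing augmentation are zero.** -/
theorem idem_zero [IsDomain k] [CharZero k] {n : Type} [Fintype n] [DecidableEq n]
    (e : Matrix n n (MonoidAlgebra k Pr)) (he : e * e = e) (h0 : ∀ i, chi k 1 (e i i) = 0) :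
    e = 0 := by
  have h1 : chi k 1 e.trace = 0 := by
    rw [Matrix.trace, map_sum]
    exact Finset.sum_eq_zero fun i _ => h0 i
  have h2 := fam_x k e he
  have h3 := fam_y k e he
  have h4 := fam_z k e he
  have h5 : aug8 k (Phi k e.trace).trace = 0 := by
    rw [aug8_trace]
    linear_combination 2 * h1 * 4 - 2 * (h2 + h3 + h4)
  have hcz : CharZero (AddMonoidAlgebra k Lat) := charZero_of_alg (aug8 k)
  obtain ⟨m, hm, hm'⟩ := trace_rep (Phi k).toRingHom e he
  have hm2 : (m : k) = 0 := by
    have h6 : aug8 k (Phi k e.trace).trace = aug8 k (m : AddMonoidAlgebra k Lat) :=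
      congrArg (aug8 k) hm
    rw [h5, map_natCast] at h6
    exact h6.symm
  have hm3 : m = 0 := by exact_mod_cast hm2
  have h7 := hm' hm3
  apply Matrix.ext
  intro i j
  rw [Matrix.zero_apply]
  apply Phi_injective
  apply Matrix.ext
  intro v w
  exact congrFun (congrFun h7 (i, v)) (j, w)

end Pool.Agent.K6.H28.IP
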