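import Mathlib
import Pool.Agent.K6.H28.IP.Idem

/-!
# The group ring of the Promislow group is noetherian; the group is torsion-free and
polycyclic-by-finite
-/

set_option autoImplicit false
set_option linter.unusedSectionVars false

namespace Pool.Agent.K6.H28.IP

open Pool.Agent.Q151.Cov

/-! ### Torsion-free -/

lemma pos_pow {i : Fin 3} {t : Pr} (ht : Pos i t) (n : ℕ) : Pos i (t ^ (n + 1)) := by
  induction n with
  | zero => simpa using ht
  | succ n ih => rw [pow_succ]; exact pos_mul ih ht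

theorem torsionFree (g : Pr) (hg : IsOfFinOrder g) : g = 1 := by
  by_contra hne
  obtain ⟨n, hn, h⟩ := isOfFinOrder_iff_pow_eq_one.1 hg
  obtain ⟨m, rfl⟩ : ∃ m, n = m + 1 := ⟨n - 1, by omega⟩
  obtain ⟨i, hi | hi⟩ := pos_total hne
  · have := pos_pow hi m
    rw [h] at this
    exact not_pos_one i this
  · have := pos_pow hi m
    rw [inv_pow, h, inv_one] at this
    exact not_pos_one i this

/-! ### The lattice -/

/-- the embedding of the lattice -/
def lat : Multiplicative Lat →* Pr where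
  toFun m := ⟨⟨2 * m.toAdd.1, 2 * m.toAdd.2.1, 2 * m.toAdd.2.2⟩, by
    show (2 * m.toAdd.1 + 2 * m.toAdd.2.1 + 2 * m.toAdd.2.2) % 2 = 0
    omega⟩
  map_one' := rfl
  map_mul' m m' := by
    have h : ∀ n : ℤ, sg (2 * n) = 1 := fun n => by unfold sg; rw [if_pos (by omega)]
    apply Subtype.ext
    apply Ph.ext
    · show 2 * (m.toAdd.1 + m'.toAdd.1) = 2 * m.toAdd.1 + sg (2 * m.toAdd.2.2) * (2 * m'.toAdd.1)
      rw [h]; ring
    · show 2 * (m.toAdd.2.1 + m'.toAdd.2.1) =
        2 * m.toAdd.2.1 + sg (2 * m.toAdd.1) * (2 * m'.toAdd.2.1)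
      rw [h]; ring
    · show 2 * (m.toAdd.2.2 + m'.toAdd.2.2) =
        2 * m.toAdd.2.2 + sg (2 * m.toAdd.2.1) * (2 * m'.toAdd.2.2)
      rw [h]; ring

/-- coset representatives -/
def rep : Fin 4 → Pr
  | 0 => 1
  | 1 => ⟨⟨1, 1, 0⟩, by show ((1 : ℤ) + 1 + 0) % 2 = 0; norm_num⟩
  | 2 => ⟨⟨0, 1, 1⟩, by show ((0 : ℤ) + 1 + 1) % 2 = 0; norm_num⟩
  | 3 => ⟨⟨1, 0, 1⟩, by show ((1 : ℤ) + 0 + 1) % 2 = 0; norm_num⟩

lemma lat_mul (x y z : ℤ) (s : Pr) :
    ((lat (Multiplicative.ofAdd (x, y, z)) * s : Pr) : Ph) =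
      ⟨2 * x + s.1.x, 2 * y + s.1.y, 2 * z + s.1.z⟩ := by
  have h : ∀ n : ℤ, sg (2 * n) = 1 := fun n => by unfold sg; rw [if_pos (by omega)]
  apply Ph.ext
  · show 2 * x + sg (2 * z) * s.1.x = _
    rw [h, one_mul]
  · show 2 * y + sg (2 * x) * s.1.y = _
    rw [h, one_mul]
  · show 2 * z + sg (2 * y) * s.1.z = _
    rw [h, one_mul]

lemma exists_rep (g : Pr) : ∃ (m : Multiplicative Lat) (i : Fin 4), g = lat m * rep i := by
  have h : (g.1.x + g.1.y + g.1.z) % 2 = 0 := g.2
  have key : ∀ i : Fin 4, (g.1.x - (rep i).1.x) % 2 = 0 → (g.1.y - (rep i).1.y) % 2 = 0 →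
      (g.1.z - (rep i).1.z) % 2 = 0 → ∃ m : Multiplicative Lat, g = lat m * rep i := by
    intro i h1 h2 h3
    refine ⟨Multiplicative.ofAdd ((g.1.x - (rep i).1.x) / 2, (g.1.y - (rep i).1.y) / 2,
      (g.1.z - (rep i).1.z) / 2), ?_⟩
    apply Subtype.ext
    rw [lat_mul]
    apply Ph.ext <;> dsimp only <;> omega
  rcases Int.emod_two_eq_zero_or_one g.1.x with hx | hx <;>
    rcases Int.emod_two_eq_zero_or_one g.1.y with hy | hy
  · obtain ⟨m, hm⟩ := key 0 (by show (g.1.x - 0) % 2 = 0; omega)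
      (by show (g.1.y - 0) % 2 = 0; omega) (by show (g.1.z - 0) % 2 = 0; omega)
    exact ⟨m, 0, hm⟩
  · obtain ⟨m, hm⟩ := key 2 (by show (g.1.x - 0) % 2 = 0; omega)
      (by show (g.1.y - 1) % 2 = 0; omega) (by show (g.1.z - 1) % 2 = 0; omega)
    exact ⟨m, 2, hm⟩
  · obtain ⟨m, hm⟩ := key 3 (by show (g.1.x - 1) % 2 = 0; omega)
      (by show (g.1.y - 0) % 2 = 0; omega) (by show (g.1.z - 1) % 2 = 0; omega)
    exact ⟨m, 3, hm⟩
  · obtain ⟨m, hm⟩ := key 1 (by show (g.1.x - 1) % 2 = 0; omega)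
      (by show (g.1.y - 1) % 2 = 0; omega) (by show (g.1.z - 0) % 2 = 0; omega)
    exact ⟨m, 1, hm⟩

/-! ### Noetherian -/

/-- the group ring of the lattice in the group ring -/
noncomputable def latRing (k : Type) [CommRing k] :
    MonoidAlgebra k (Multiplicative Lat) →+* MonoidAlgebra k Pr :=
  (MonoidAlgebra.mapDomainAlgHom k k lat).toRingHom

theorem noetherian (k : Type) [CommRing k] [IsNoetherianRing k] :
    IsNoetherianRing (MonoidAlgebra k Pr) := by
  classical
  let B := MonoidAlgebra k (Multiplicative Lat)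
  let mB : Module B (MonoidAlgebra k Pr) := Module.compHom _ (latRing k)
  have hsm : ∀ (b : B) (r : MonoidAlgebra k Pr), b • r = latRing k b * r := fun _ _ => rfl
  have htower : IsScalarTower B (MonoidAlgebra k Pr) (MonoidAlgebra k Pr) := by
    constructor
    intro b r s
    rw [hsm, smul_eq_mul, smul_eq_mul, hsm, mul_assoc]
  have hfg : Monoid.FG (Multiplicative Lat) := by
    have : AddMonoid.FG Lat := by
      have h1 : AddGroup.FG Lat := inferInstance
      exact AddGroup.fg_iff_addMonoid_fg.1 h1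
    infer_instance
  have hB : IsNoetherianRing B := Algebra.FiniteType.isNoetherianRing k B
  have hfin : Module.Finite B (MonoidAlgebra k Pr) := by
    refine ⟨⟨Finset.univ.image fun i : Fin 4 => MonoidAlgebra.single (rep i) 1, ?_⟩⟩
    rw [eq_top_iff]
    rintro r -
    induction r using MonoidAlgebra.induction_linear with
    | zero => exact Submodule.zero_mem _
    | add f g hf hg => exact Submodule.add_mem _ hf hg
    | single g a =>
      obtain ⟨m, i, rfl⟩ := exists_rep g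
      have h1 : (MonoidAlgebra.single (lat m * rep i) a : MonoidAlgebra k Pr) =
          (MonoidAlgebra.single m a : B) • MonoidAlgebra.single (rep i) 1 := by
        rw [hsm]
        have : latRing k (MonoidAlgebra.single m a) = MonoidAlgebra.single (lat m) a := by
          simp [latRing]
        rw [this, MonoidAlgebra.single_mul_single, mul_one]
      rw [h1]
      exact Submodule.smul_mem _ _ (Submodule.subset_span (by simp))
  have hN : IsNoetherian B (MonoidAlgebra k Pr) := isNoetherian_of_isNoetherianRing_of_finite B _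
  exact isNoetherian_of_tower B hN

/-! ### Polycyclic-by-finite -/

universe u

/-- `G` is polycyclic: there is a chain `1 = H 0 ≤ H 1 ≤ ⋯ ≤ H n = G` of subgroups such that `H i` is
normal in `H (i + 1)` and the quotient is cyclic. -/
def IsPolycyclic (G : Type u) [Group G] : Prop :=
  ∃ (n : ℕ) (H : ℕ → Subgroup G), H 0 = ⊥ ∧ H n = ⊤ ∧ ∀ i < n, H i ≤ H (i + 1) ∧
    ∃ _ : ((H i).subgroupOf (H (i + 1))).Normal,
      IsCyclic (H (i + 1) ⧸ (H i).subgroupOf (H (i + 1)))

/-- `G` is polycyclic-by-finite: it has a polycyclic normal subgroup of finite index. -/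
def IsPolycyclicByFinite (G : Type u) [Group G] : Prop :=
  ∃ N : Subgroup G, N.Normal ∧ N.FiniteIndex ∧ IsPolycyclic N

lemma cyclic_of_hom {K : Type} [Group K] (H : Subgroup K) (f : K →* Multiplicative ℤ)
    (hf : f.ker = H) : ∃ _ : H.Normal, IsCyclic (K ⧸ H) := by
  subst hf
  refine ⟨inferInstance, ?_⟩
  exact isCyclic_of_injective (QuotientGroup.kerLift f) (QuotientGroup.kerLift_injective f)

/-- the lattice subgroup -/
def NL : Subgroup Pr := clG.ker

lemma mem_NL {g : Pr} : g ∈ NL ↔ sg g.1.x = 1 ∧ sg g.1.y = 1 ∧ sg g.1.z = 1 := by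
  rw [NL, MonoidHom.mem_ker, ← su_val, ← su_val, ← su_val]
  constructor
  · intro h
    have h2 : su g.1.x = 1 := congrArg Prod.fst h
    have h3 : su g.1.y = 1 := congrArg (fun p => p.2.1) h
    have h4 : su g.1.z = 1 := congrArg (fun p => p.2.2) h
    rw [h2, h3, h4]
    exact ⟨rfl, rfl, rfl⟩
  · rintro ⟨h1, h2, h3⟩
    show (su g.1.x, su g.1.y, su g.1.z) = 1
    rw [show su g.1.x = 1 from Units.ext h1, show su g.1.y = 1 from Units.ext h2,
      show su g.1.z = 1 from Units.ext h3]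
    rfl

/-- the coordinates on the lattice -/
def cx : NL →* Multiplicative ℤ where
  toFun g := Multiplicative.ofAdd g.1.1.x
  map_one' := rfl
  map_mul' g h := by
    show Multiplicative.ofAdd (g.1.1.x + sg g.1.1.z * h.1.1.x) = _
    rw [(mem_NL.1 g.2).2.2, one_mul]
    rfl

def cy : NL →* Multiplicative ℤ where
  toFun g := Multiplicative.ofAdd g.1.1.y
  map_one' := rfl
  map_mul' g h := by
    show Multiplicative.ofAdd (g.1.1.y + sg g.1.1.x * h.1.1.y) = _
    rw [(mem_NL.1 g.2).1, one_mul]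
    rfl

def cz : NL →* Multiplicative ℤ where
  toFun g := Multiplicative.ofAdd g.1.1.z
  map_one' := rfl
  map_mul' g h := by
    show Multiplicative.ofAdd (g.1.1.z + sg g.1.1.y * h.1.1.z) = _
    rw [(mem_NL.1 g.2).2.1, one_mul]
    rfl

/-- the chain of subgroups -/
def chain : ℕ → Subgroup NL
  | 0 => ⊥
  | 1 => cy.ker ⊓ cz.ker
  | 2 => cz.ker
  | _ => ⊤

lemma polycyclic_NL : IsPolycyclic NL := by
  refine ⟨3, chain, rfl, rfl, ?_⟩
  intro i hi
  interval_cases i
  · refine ⟨bot_le, cyclic_of_hom _ (cx.comp (Subgroup.subtype _)) ?_⟩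
    ext ⟨g, hg⟩
    obtain ⟨hy, hz⟩ := Subgroup.mem_inf.1 hg
    rw [MonoidHom.mem_ker, Subgroup.mem_subgroupOf]
    show cx g = 1 ↔ g ∈ (⊥ : Subgroup NL)
    rw [Subgroup.mem_bot]
    constructor
    · intro hx
      apply Subtype.ext
      apply Subtype.ext
      exact Ph.ext hx hy hz
    · rintro rfl
      exact map_one _
  · refine ⟨inf_le_right, cyclic_of_hom _ (cy.comp (Subgroup.subtype _)) ?_⟩
    ext ⟨g, hg⟩
    rw [MonoidHom.mem_ker, Subgroup.mem_subgroupOf]
    show cy g = 1 ↔ g ∈ cy.ker ⊓ cz.ker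
    rw [Subgroup.mem_inf, MonoidHom.mem_ker]
    exact ⟨fun h => ⟨h, hg⟩, fun h => h.1⟩
  · refine ⟨le_top, cyclic_of_hom _ (cz.comp (Subgroup.subtype _)) ?_⟩
    ext ⟨g, hg⟩
    rw [MonoidHom.mem_ker, Subgroup.mem_subgroupOf]
    show cz g = 1 ↔ g ∈ cz.ker
    rw [MonoidHom.mem_ker]

theorem polycyclicByFinite : IsPolycyclicByFinite Pr := by
  refine ⟨NL, ?_, ?_, polycyclic_NL⟩
  · rw [NL]; infer_instance
  · rw [NL]; infer_instance

end Pool.Agent.K6.H28.IP
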