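import Mathlib

/-!
# Projective modules from idempotent ideals (Whitehead, Sakhajev)

Let `R` be a ring, `y` a finite family of elements with `y j = ∑ y i * y l * s i l j`. The module `P`
with generators `e_α`, for the words `α` in the indices, and the relations
`e_α = ∑ y l • e_{lα}` is projective.
-/

set_option autoImplicit false
set_option linter.unusedSectionVars false

namespace Pool.Agent.K6.H28.IP

open Finsupp

universe u v

variable {R : Type u} [Ring R] {ι : Type} [Fintype ι] (y : ι → R) (s : ι → ι → ι → R)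

/-- the free module on the words -/
abbrev Fr (R : Type u) [Ring R] (ι : Type) : Type u := List ι →₀ R

/-- the basis -/
noncomputable def ew (α : List ι) : Fr R ι := Finsupp.single α 1

/-- the linear map with given values on the words -/
noncomputable def ext {M : Type v} [AddCommGroup M] [Module R M] (f : List ι → M) :
    Fr R ι →ₗ[R] M :=
  Finsupp.lift M R (List ι) f

lemma ext_ew {M : Type v} [AddCommGroup M] [Module R M] (f : List ι → M) (α : List ι) :
    ext (R := R) f (ew α) = f α := by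
  simp [ext, ew]

lemma hom_ext {M : Type v} [AddCommGroup M] [Module R M] {f g : Fr R ι →ₗ[R] M}
    (h : ∀ α, f (ew α) = g (ew α)) : f = g := by
  apply Finsupp.lhom_ext'
  intro α
  apply LinearMap.ext_ring
  exact h α

/-- `e_α ↦ ∑ y l • e_{lα}` -/
noncomputable def ma : Fr R ι →ₗ[R] Fr R ι := ext fun α => ∑ l, y l • ew (l :: α)

/-- `e_{mlα} ↦ ∑ s l m j • e_{jα}` -/
noncomputable def msf : List ι → Fr R ι
  | [] => 0
  | [_] => 0
  | m :: l :: α => ∑ j, s l m j • ew (j :: α)

/-- the map `e_{mlα} ↦ ∑ s l m j • e_{jα}` -/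
noncomputable def ms : Fr R ι →ₗ[R] Fr R ι := ext (msf s)

/-- the sum of the powers of `ms` -/
noncomputable def mxf : List ι → ι → Fr R ι
  | [], m => ew [m]
  | l :: α, m => ew (m :: l :: α) + ∑ j, s l m j • mxf α j

/-- the sum of the powers of `ms` -/
noncomputable def mxf' : List ι → Fr R ι
  | [] => ew []
  | m :: α => mxf s α m

/-- the sum of the powers of `ms` -/
noncomputable def mx : Fr R ι →ₗ[R] Fr R ι := ext (mxf' s)

lemma mx_ms : mx s = LinearMap.id + mx s ∘ₗ ms s := by
  apply hom_ext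
  intro α
  rw [LinearMap.add_apply, LinearMap.comp_apply, LinearMap.id_apply, ms, ext_ew, mx, ext_ew]
  match α with
  | [] => simp [msf, mxf']
  | [m] => simp [msf, mxf', mxf]
  | m :: l :: α =>
    simp only [msf, mxf', mxf, map_sum, map_smul, ext_ew]

lemma ma_ms (h : ∀ j, y j = ∑ i, ∑ l, y i * y l * s i l j) :
    ms s ∘ₗ ma y ∘ₗ ma y = ma y := by
  apply hom_ext
  intro α
  rw [LinearMap.comp_apply, LinearMap.comp_apply, ma, ext_ew]
  simp only [map_sum, map_smul, ext_ew, ms, msf]
  rw [show (∑ j, y j • ew (j :: α) : Fr R ι) = ∑ j, (∑ i, ∑ l, y i * y l * s i l j) •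
    ew (j :: α) from Finset.sum_congr rfl fun j _ => by rw [← h j]]
  simp only [Finset.sum_smul, Finset.smul_sum, smul_smul, mul_assoc]
  symm
  rw [Finset.sum_comm]
  refine Finset.sum_congr rfl fun i _ => ?_
  rw [Finset.sum_comm]

/-- the section -/
noncomputable def mh : Fr R ι →ₗ[R] Fr R ι :=
  mx s ∘ₗ ma y - ma y ∘ₗ mx s ∘ₗ ma y + ma y ∘ₗ ma y

lemma mx_aa (h : ∀ j, y j = ∑ i, ∑ l, y i * y l * s i l j) (v : Fr R ι) :
    mx s (ma y (ma y v)) = ma y (ma y v) + mx s (ma y v) := by
  have h1 := LinearMap.congr_fun (mx_ms s) (ma y (ma y v))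
  rw [LinearMap.add_apply, LinearMap.comp_apply, LinearMap.id_apply] at h1
  rw [h1]
  congr 2
  exact LinearMap.congr_fun (ma_ms y s h) v

lemma mh_apply (v : Fr R ι) :
    mh y s v = mx s (ma y v) - ma y (mx s (ma y v)) + ma y (ma y v) := rfl

lemma mh_a (h : ∀ j, y j = ∑ i, ∑ l, y i * y l * s i l j) (v : Fr R ι) :
    mh y s (ma y v) = mh y s v := by
  rw [mh_apply, mh_apply, mx_aa y s h, map_add]
  abel

/-- the relations -/
noncomputable def rel : Submodule R (Fr R ι) :=
  LinearMap.range ((LinearMap.id : Fr R ι →ₗ[R] Fr R ι) - ma y)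

/-- the module -/
abbrev WP : Type u := Fr R ι ⧸ rel y

lemma rel_le (h : ∀ j, y j = ∑ i, ∑ l, y i * y l * s i l j) :
    rel y ≤ LinearMap.ker (mh y s) := by
  rintro _ ⟨v, rfl⟩
  rw [LinearMap.mem_ker, LinearMap.sub_apply, map_sub, mh_a y s h, LinearMap.id_apply, sub_self]

lemma mh_sub (v : Fr R ι) : mh y s v - v ∈ rel y := by
  refine ⟨mx s (ma y v) - v - ma y v, ?_⟩
  rw [LinearMap.sub_apply, LinearMap.id_apply, mh_apply]
  simp only [map_sub]
  abel

/-- the section on the quotient -/
noncomputable def sec (h : ∀ j, y j = ∑ i, ∑ l, y i * y l * s i l j) : WP y →ₗ[R] Fr R ι :=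
  (rel y).liftQ (mh y s) (rel_le y s h)

lemma sec_mkQ (h : ∀ j, y j = ∑ i, ∑ l, y i * y l * s i l j) (v : Fr R ι) :
    sec y s h ((rel y).mkQ v) = mh y s v := rfl

lemma mkQ_sec (h : ∀ j, y j = ∑ i, ∑ l, y i * y l * s i l j) (x : WP y) :
    (rel y).mkQ (sec y s h x) = x := by
  obtain ⟨v, rfl⟩ := (rel y).mkQ_surjective x
  rw [sec_mkQ, Submodule.mkQ_apply, Submodule.mkQ_apply, Submodule.Quotient.eq]
  exact mh_sub y s v

theorem projective (h : ∀ j, y j = ∑ i, ∑ l, y i * y l * s i l j) :
    Module.Projective R (WP y) :=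
  Module.Projective.of_split (sec y s h) (rel y).mkQ
    (LinearMap.ext fun x => mkQ_sec y s h x)

lemma mk_ew (α : List ι) : (rel y).mkQ (ew α) = ∑ l, y l • (rel y).mkQ (ew (l :: α)) := by
  have h1 : (rel y).mkQ (ew α) = (rel y).mkQ (ma y (ew α)) := by
    rw [Submodule.mkQ_apply, Submodule.mkQ_apply, Submodule.Quotient.eq]
    exact ⟨ew α, rfl⟩
  rw [h1, ma, ext_ew, map_sum]
  simp only [map_smul]

/-- all linear maps to `R` have values in the kernel of each ring homomorphism that kills all `y l` -/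
theorem eps_zero {k : Type v} [Ring k] (ε : R →+* k) (hy : ∀ l, ε (y l) = 0) (f : WP y →ₗ[R] R)
    (x : WP y) : ε (f x) = 0 := by
  obtain ⟨v, rfl⟩ := (rel y).mkQ_surjective x
  induction v using Finsupp.induction_linear with
  | zero => simp
  | add v w hv hw => rw [map_add, map_add, map_add, hv, hw, add_zero]
  | single α r =>
    have h1 : (Finsupp.single α r : Fr R ι) = r • ew α := by
      rw [ew, Finsupp.smul_single, smul_eq_mul, mul_one]
    rw [h1, map_smul, map_smul, smul_eq_mul, map_mul, mk_ew]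
    simp [map_sum, map_smul, hy]

/-- the module is not zero -/
theorem nontrivial (h : ∀ j, y j = ∑ i, ∑ l, y i * y l * s i l j) (l0 : ι) (h0 : y l0 ≠ 0) :
    Nontrivial (WP y) := by
  by_contra hn
  rw [not_nontrivial_iff_subsingleton] at hn
  have h1 : sec y s h ((rel y).mkQ (ew [])) = sec y s h 0 := by
    rw [Subsingleton.elim ((rel y).mkQ (ew [])) (0 : WP y)]
  rw [map_zero, sec_mkQ, mh_apply] at h1
  have h2 : mx s (ma y (ew [])) = ma y (ew []) := by
    rw [ma, ext_ew, map_sum]
    refine Finset.sum_congr rfl fun l _ => ?_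
    rw [map_smul, mx, ext_ew, mxf', mxf]
  rw [h2, sub_add_cancel, ma, ext_ew] at h1
  have h3 := DFunLike.congr_fun h1 [l0]
  classical
  rw [Finsupp.finsetSum_apply] at h3
  rw [Finset.sum_eq_single l0] at h3
  · rw [ew, Finsupp.smul_single, smul_eq_mul, mul_one, Finsupp.single_eq_same] at h3
    exact h0 h3
  · intro l _ hl
    rw [ew, Finsupp.smul_single, smul_eq_mul, mul_one, Finsupp.single_eq_of_ne]
    intro h4
    exact hl (by simpa using h4.symm)
  · intro h4
    exact absurd (Finset.mem_univ l0) h4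

/-- the module is countably generated -/
theorem countable_gen : ∃ x : ℕ → WP y, Submodule.span R (Set.range x) = ⊤ := by
  have : Countable (List ι) := inferInstance
  obtain ⟨f, hf⟩ := exists_surjective_nat (List ι)
  refine ⟨fun n => (rel y).mkQ (ew (f n)), ?_⟩
  rw [eq_top_iff]
  rintro x -
  obtain ⟨v, rfl⟩ := (rel y).mkQ_surjective x
  induction v using Finsupp.induction_linear with
  | zero => simp
  | add v w hv hw => rw [map_add]; exact Submodule.add_mem _ hv hw
  | single α r =>
    have h1 : (Finsupp.single α r : Fr R ι) = r • ew α := by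
      rw [ew, Finsupp.smul_single, smul_eq_mul, mul_one]
    rw [h1, map_smul]
    obtain ⟨n, rfl⟩ := hf α
    exact Submodule.smul_mem _ _ (Submodule.subset_span ⟨n, rfl⟩)

end Pool.Agent.K6.H28.IP
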