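import Mathlib
import Pool.Agent.K6.H28.IP.Wh
import Pool.Agent.K6.H28.IP.Noe

/-!
# A projective module which is not a direct sum of a free module and a left ideal
-/

set_option autoImplicit false
set_option linter.unusedSectionVars false

namespace Pool.Agent.K6.H28.IP

open Pool.Agent.Q151.Cov

lemma rel_aux {R : Type} [Ring R] (u v : R)
    (h : (1 + u) * (1 + u) * (1 + v) * ((1 + u) * (1 + u)) = 1 + v) :
    4 * u + (u * u * (2 + (2 + u) * (2 + u) + v + v * u * (2 + u)) +
      u * v * (2 + 2 * u * (2 + u)) + v * u * (2 + u)) = 0 := by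
  have h1 : 4 * u + (u * u * (2 + (2 + u) * (2 + u) + v + v * u * (2 + u)) +
      u * v * (2 + 2 * u * (2 + u)) + v * u * (2 + u)) =
      (1 + u) * (1 + u) * (1 + v) * ((1 + u) * (1 + u)) - (1 + v) := by
    noncomm_ring
  rw [h1, h, sub_self]

lemma rel_aux2 {k R : Type} [CommRing k] [Ring R] [Algebra k R] (q : k) (hq : q * 4 = 1) (u v : R)
    (h : (1 + u) * (1 + u) * (1 + v) * ((1 + u) * (1 + u)) = 1 + v) :
    u = u * u * ((-q) • (2 + (2 + u) * (2 + u) + v + v * u * (2 + u))) +
      u * v * ((-q) • (2 + 2 * u * (2 + u))) + v * u * ((-q) • (2 + u)) := by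
  have h1 := rel_aux u v h
  have h2 : u = q • (4 * u) := by
    have h4 : (4 : R) = algebraMap k R 4 := by rw [map_ofNat]
    rw [h4, ← Algebra.smul_def, smul_smul, hq, one_smul]
  rw [mul_smul_comm, mul_smul_comm, mul_smul_comm, ← smul_add, ← smul_add, neg_smul, ← smul_neg,
    ← eq_neg_of_add_eq_zero_left h1]
  exact h2

/-- all linear maps to the ring have values of augmentation zero -/
def NoAug (k : Type) [CommRing k] (P : Type) [AddCommGroup P] [Module (MonoidAlgebra k Pr) P] :
    Prop :=
  ∀ (f : P →ₗ[MonoidAlgebra k Pr] MonoidAlgebra k Pr) (x : P), chi k 1 (f x) = 0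

/-- finitely generated projective modules with this property are zero -/
theorem noAug_zero (k : Type) [CommRing k] [IsDomain k] [CharZero k] (P : Type) [AddCommGroup P]
    [Module (MonoidAlgebra k Pr) P] [Module.Finite (MonoidAlgebra k Pr) P]
    [Module.Projective (MonoidAlgebra k Pr) P] (h : NoAug k P) : Subsingleton P := by
  set R := MonoidAlgebra k Pr
  obtain ⟨n, π, hπ⟩ := Module.Finite.exists_fin' R P
  obtain ⟨σ, hσ⟩ := Module.projective_lifting_property π LinearMap.id hπ
  have hσ' : ∀ x, π (σ x) = x := fun x => LinearMap.congr_fun hσ x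
  let e : Matrix (Fin n) (Fin n) R := Matrix.of fun i => σ (π (Pi.single i 1))
  have hvec : ∀ v : Fin n → R, σ (π v) = fun j => ∑ i, v i * e i j := by
    intro v
    have h1 : v = ∑ i, v i • (Pi.single i 1 : Fin n → R) := by
      ext j
      rw [Finset.sum_apply, Finset.sum_eq_single j]
      · simp
      · intro i _ hij
        simp [hij.symm]
      · simp
    conv_lhs => rw [h1]
    rw [map_sum, map_sum]
    funext j
    rw [Finset.sum_apply]
    apply Finset.sum_congr rfl
    intro i _
    have h2 : σ (π (v i • (Pi.single i 1 : Fin n → R))) = v i • σ (π (Pi.single i 1)) := by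
      rw [LinearMap.map_smul, LinearMap.map_smul]
    rw [h2]
    rfl
  have he : e * e = e := by
    apply Matrix.ext
    intro i j
    rw [Matrix.mul_apply]
    have h1 := congrFun (hvec (σ (π (Pi.single i 1)))) j
    rw [hσ'] at h1
    exact h1.symm
  have h0 : ∀ i, chi k 1 (e i i) = 0 := by
    intro i
    exact h ((LinearMap.proj i : (Fin n → R) →ₗ[R] R) ∘ₗ σ) (π (Pi.single i 1))
  have he0 : e = 0 := idem_zero k e he h0
  have hall : ∀ x : P, x = 0 := by
    intro x
    obtain ⟨v, rfl⟩ := hπ x
    have h1 := hvec v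
    have h2 : σ (π v) = 0 := by
      rw [h1, he0]
      ext j
      simp
    rw [← hσ' (π v), h2, map_zero]
  exact ⟨fun x y => by rw [hall x, hall y]⟩

/-- a countably generated nonzero projective module with this property -/
theorem exists_module (k : Type) [CommRing k] [CharZero k] (h2 : IsUnit (2 : k)) :
    ∃ (P : Type) (_ : AddCommGroup P) (_ : Module (MonoidAlgebra k Pr) P),
      Module.Projective (MonoidAlgebra k Pr) P ∧ Nontrivial P ∧
      (∃ x : ℕ → P, Submodule.span (MonoidAlgebra k Pr) (Set.range x) = ⊤) ∧ NoAug k P := by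
  set R := MonoidAlgebra k Pr
  obtain ⟨q, hq⟩ : ∃ q : k, q * 4 = 1 := by
    have h4 : IsUnit (4 : k) := by
      have : (4 : k) = 2 * 2 := by norm_num
      rw [this]
      exact h2.mul h2
    obtain ⟨q, hq⟩ := h4.exists_left_inv
    exact ⟨q, hq⟩
  let a : R := MonoidAlgebra.single ga 1
  let b : R := MonoidAlgebra.single gb 1
  let u : R := a - 1
  let v : R := b - 1
  have hsingle : ∀ g h : Pr, (MonoidAlgebra.single g 1 : R) * MonoidAlgebra.single h 1 =
      MonoidAlgebra.single (g * h) 1 := by
    intro g h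
    rw [MonoidAlgebra.single_mul_single, mul_one]
  have hab : (1 + u) * (1 + u) * (1 + v) * ((1 + u) * (1 + u)) = 1 + v := by
    have hu : 1 + u = a := by simp [u]
    have hv : 1 + v = b := by simp [v]
    rw [hu, hv]
    simp only [a, b, hsingle]
    congr 1
  have hba : (1 + v) * (1 + v) * (1 + u) * ((1 + v) * (1 + v)) = 1 + u := by
    have hu : 1 + u = a := by simp [u]
    have hv : 1 + v = b := by simp [v]
    rw [hu, hv]
    simp only [a, b, hsingle]
    congr 1
  let y : Fin 2 → R := ![u, v]
  let s : Fin 2 → Fin 2 → Fin 2 → R := fun i l j =>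
    ![![![(-q) • (2 + (2 + u) * (2 + u) + v + v * u * (2 + u)), 0],
        ![(-q) • (2 + 2 * u * (2 + u)), (-q) • (2 + v)]],
      ![![(-q) • (2 + u), (-q) • (2 + 2 * v * (2 + v))],
        ![0, (-q) • (2 + (2 + v) * (2 + v) + u + u * v * (2 + v))]]] i l j
  have hys : ∀ j, y j = ∑ i, ∑ l, y i * y l * s i l j := by
    intro j
    rw [Fin.sum_univ_two, Fin.sum_univ_two, Fin.sum_univ_two]
    fin_cases j
    · show u = u * u * ((-q) • (2 + (2 + u) * (2 + u) + v + v * u * (2 + u))) +
        u * v * ((-q) • (2 + 2 * u * (2 + u))) + (v * u * ((-q) • (2 + u)) + v * v * 0)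
      rw [mul_zero, add_zero]
      exact rel_aux2 q hq u v hab
    · show v = u * u * 0 + u * v * ((-q) • (2 + v)) +
        (v * u * ((-q) • (2 + 2 * v * (2 + v))) +
          v * v * ((-q) • (2 + (2 + v) * (2 + v) + u + u * v * (2 + v))))
      rw [mul_zero, zero_add]
      conv_lhs => rw [rel_aux2 q hq v u hba]
      abel
  have hne : (1 : Pr) ≠ ga := by
    intro h
    have h1 : (0 : ℤ) = 1 := congrArg (fun g : Pr => g.1.x) h
    omega
  have hu0 : u ≠ 0 := by
    intro h
    have h1 : a = 1 := sub_eq_zero.1 h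
    have h3 := congrArg (fun r : R => r.coeff 1) h1
    simp only [a] at h3
    rw [MonoidAlgebra.one_def, MonoidAlgebra.coeff_single, MonoidAlgebra.coeff_single,
      Finsupp.single_eq_same, Finsupp.single_eq_of_ne hne] at h3
    exact zero_ne_one h3
  refine ⟨WP y, inferInstance, inferInstance, projective y s hys, nontrivial y s hys 0 hu0,
    countable_gen y, ?_⟩
  intro f x
  refine eps_zero y (chi k 1).toRingHom ?_ f x
  intro l
  have hchi : ∀ g : Pr, chi k 1 (MonoidAlgebra.single g 1 - 1) = 0 := by
    intro g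
    rw [map_sub, map_one, chi_single, MonoidHom.one_apply, Units.val_one, Int.cast_one, mul_one,
      sub_self]
  fin_cases l
  · exact hchi ga
  · exact hchi gb

/-- such a module has no decomposition into a free module and a left ideal -/
theorem no_decomposition (k : Type) [CommRing k] [IsDomain k] [CharZero k] [IsNoetherianRing k]
    (P : Type) [AddCommGroup P] [Module (MonoidAlgebra k Pr) P]
    (hP : Module.Projective (MonoidAlgebra k Pr) P) (hn : Nontrivial P) (h : NoAug k P)
    {F : Type*} [AddCommGroup F] [Module (MonoidAlgebra k Pr) F]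
    (hF : Module.Free (MonoidAlgebra k Pr) F) (I : Ideal (MonoidAlgebra k Pr))
    (e : P ≃ₗ[MonoidAlgebra k Pr] F × I) : False := by
  set R := MonoidAlgebra k Pr
  have hR : IsNoetherianRing R := noetherian k
  -- the free part is zero
  let b := Module.Free.chooseBasis R F
  have hemp : IsEmpty (Module.Free.ChooseBasisIndex R F) := by
    by_contra hne
    rw [not_isEmpty_iff] at hne
    obtain ⟨i⟩ := hne
    have h1 := h ((b.coord i) ∘ₗ (LinearMap.fst R F I) ∘ₗ e.toLinearMap) (e.symm (b i, 0))
    simp at h1
  have hF0 : Subsingleton F := b.repr.toEquiv.subsingleton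
  have : Module.Finite R I := Module.Finite.iff_fg.2 (IsNoetherian.noetherian I)
  have : Module.Finite R F := inferInstance
  have hfin : Module.Finite R P := Module.Finite.equiv e.symm
  have := noAug_zero k P h
  exact not_subsingleton P this

end Pool.Agent.K6.H28.IP
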